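import Pool.Agent.Helper74.P2.Model
import Pool.Agent.Helper80.LE.Form
import Pool.Agent.Helper80.TE.Main

/-!
# Partial orders: the two-variable sentence and universality
-/

set_option autoImplicit false

namespace Pool.Agent.Helper74.P2

open Pool.Agent.Helper29.Prefix Pool.Agent.Helper29.C2 Pool.Agent.Helper80.NF Pool.Agent.Helper80.TE
  Pool.Agent.Helper80.LE Pool.Agent.Helper74.W2O Pool.Agent.Helper20.Spectra Pool.Agent.Helper20.PV

instance {q : ℕ} : Finite (PCol q) := by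
  refine Finite.of_injective (β := Lt (Fin q) × (Bool × Bool) × (Bool × Bool × Bool))
    (fun c => (c.l, (c.t, c.y), (c.z, c.f, c.e))) ?_
  rintro ⟨a1, a2, a3, a4, a5, a6⟩ ⟨b1, b2, b3, b4, b5, b6⟩ h
  simp only [Prod.mk.injEq] at h
  obtain ⟨rfl, ⟨rfl, rfl⟩, rfl, rfl, rfl⟩ := h
  rfl

/-- conditions on pairs; binary relations `0, 1, 2, 3`: `P, Q, F, G` -/
def uP {q : ℕ} (W : Wang (Fin q)) (c c' : PCol q) (f : Fct Unit (Fin 4)) : Prop :=
  (c.t = c'.t → f.eq ∨ f.o () ∨ f.o' ()) ∧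
  (f.b 0 → c.t = true ∧ c'.t = false ∧ ¬ f.o' () ∧ c.l = c'.l ∧ c.y = c'.y ∧ c.z = c'.z) ∧
  (f.b 1 → c.t = true ∧ c'.t = false ∧ c.f = false ∧ c'.e = false ∧ f.o' () ∧ QR W c' c) ∧
  (f.b 2 → c.t = true ∧ c'.t = false ∧ c.z = false ∧ c'.y = false ∧ f.o () ∧ vOK W c.l c'.l) ∧
  (f.b 3 → c.t = true ∧ c'.t = false ∧ GA c ∧ GB c' ∧ ¬ f.o ()) ∧ PL W c

/-- guards -/
def gP {q : ℕ} : Fin 10 → PCol q → Prop := fun i c =>
  (![c.t = true, c.t = false, c.t = true ∧ c.f = false, c.t = false ∧ c.e = false,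
    c.t = true ∧ c.z = false, c.t = false ∧ c.y = false, c.t = true ∧ GA c, c.t = false ∧ GB c,
    True, True] : Fin 10 → Prop) i

/-- witnesses -/
def wP {q : ℕ} : Fin 10 → PCol q → PCol q → Fct Unit (Fin 4) → Prop := fun i _ c' f =>
  (![f.b 0, f.b' 0, f.b 1, f.b' 1, f.b 2, f.b' 2, f.b 3, f.b' 3, c'.f = true, c'.e = true] : Fin 10 → Prop) i

lemma pAx_iff {q : ℕ} {W : Wang (Fin q)} {A U : Type} [Nonempty A] (M : Str Unit U (Fin 4) A) (c : A → PCol q)
    (h0 : ∀ x, ¬ M.ord () x x) (h1 : ∀ x y z, M.ord () x y → M.ord () y z → M.ord () x z) :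
    PAx W (M.ord ()) (M.bin 0) (M.bin 1) (M.bin 2) (M.bin 3) c ↔
      (∀ x y, uP W (c x) (c y) (fact M x y)) ∧ ∀ i x, gP i (c x) → ∃! y, wP i (c x) (c y) (fact M x y) := by
  constructor
  · intro H
    refine ⟨fun x y => ⟨H.ch x y, H.pP x y, H.qQ x y, H.fF x y, H.gG x y, H.pl x⟩, fun i x => ?_⟩
    fin_cases i
    · exact H.P1 x
    · exact H.P2 x
    · exact H.Q1 x
    · exact H.Q2 x
    · exact H.F1 x
    · exact H.F2 x
    · exact H.G1 x
    · exact H.G2 x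
    · exact fun _ => H.of
    · exact fun _ => H.oe
  · rintro ⟨hu, hw⟩
    obtain ⟨a⟩ := ‹Nonempty A›
    exact
    { irr := h0
      tr := h1
      ch := fun x y => (hu x y).1
      pP := fun x y => (hu x y).2.1
      P1 := fun x => hw 0 x
      P2 := fun x => hw 1 x
      qQ := fun x y => (hu x y).2.2.1
      Q1 := fun x => hw 2 x
      Q2 := fun x => hw 3 x
      fF := fun x y => (hu x y).2.2.2.1
      F1 := fun x => hw 4 x
      F2 := fun x => hw 5 x
      gG := fun x y => (hu x y).2.2.2.2.1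
      G1 := fun x => hw 6 x
      G2 := fun x => hw 7 x
      of := hw 8 a trivial
      oe := hw 9 a trivial
      pl := fun x => (hu x x).2.2.2.2.2 }

/-- Strict partial orders. -/
structure IsPO {A : Type} (lt : A → A → Prop) : Prop where
  irr : ∀ x, ¬ lt x x
  trans : ∀ x y z, lt x y → lt y z → lt x z

/-- Strict partial orders without three pairwise incomparable elements. -/
structure Width2 {A : Type} (lt : A → A → Prop) : Prop where
  po : IsPO lt
  wid : ∀ x y z, x ≠ y → y ≠ z → x ≠ z → lt x y ∨ lt y x ∨ lt y z ∨ lt z y ∨ lt x z ∨ lt z x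

/-- the sentence -/
theorem p2_formula {q : ℕ} (W : Wang (Fin q)) : ∃ Φ : Fm Unit (PCol q) (Fin 4),
    ∀ (A : Type) [Nonempty A] (M : Str Unit (PCol q) (Fin 4) A), IsPO (M.ord ()) →
      ((∀ e, Sat M Φ e) ↔ ∃ c : A → PCol q, (∀ x P, M.un P x ↔ P = c x) ∧
        PAx W (M.ord ()) (M.bin 0) (M.bin 1) (M.bin 2) (M.bin 3) c) := by
  obtain ⟨Φ, hΦ⟩ := nf_unique (uP W) (gP (q := q)) wP
  refine ⟨Φ, fun A _ M h0 => ?_⟩
  rw [hΦ]
  exact exists_congr fun c => and_congr_right fun _ => (pAx_iff M c h0.irr h0.trans).symm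

/-- There is a two-variable sentence whose models over any class of partial orders which contains all
partial orders of width at most two have the sizes `szP W`. -/
theorem p2_sentence {q : ℕ} (W : Wang (Fin q)) : ∃ Φ : Fm Unit (PCol q) (Fin 4),
    ∀ K : ∀ A : Type, (Unit → A → A → Prop) → Prop, (∀ A R, K A R → IsPO (R ())) →
      (∀ A R, Width2 (R ()) → K A R) →
      szP W = {n : ℕ | 1 ≤ n ∧ ∃ M : Str Unit (PCol q) (Fin 4) (Fin n), K (Fin n) M.ord ∧ ∀ e, Sat M Φ e} := by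
  obtain ⟨Φ, hΦ⟩ := p2_formula W
  refine ⟨Φ, fun K hK hK' => Set.ext fun n => ?_⟩
  constructor
  · intro hn
    obtain ⟨N, hN, rfl, ht⟩ := (p2_sizes W n).1 hn
    obtain ⟨w, hw⟩ := wd_of_tiles hN ht
    have hpos := Nat.mul_pos hN hN
    have H := model (W := W) (Nat.dvd_mul_right N N) hw
    haveI : Nonempty (Fin (N * N) × Bool) := ⟨(⟨0, hpos⟩, true)⟩
    have e : Fin (2 * (N * N)) ≃ Fin (N * N) × Bool := (Fintype.equivFinOfCardEq (by
      rw [Fintype.card_prod, Fintype.card_fin, Fintype.card_bool]; ring)).symm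
    let M0 : Str Unit (PCol q) (Fin 4) (Fin (N * N) × Bool) :=
      ⟨fun _ x y => mlt (N * N) N x y, fun P x => P = mc (N * N) N w x,
        fun i x y => if i = 0 then ml (N * N) 0 0 x y else if i = 1 then ml (N * N) 0 1 x y else
          if i = 2 then ml (N * N) N 0 x y else ml (N * N) N 1 x y⟩
    refine ⟨hn.1, trS e M0, hK' _ _ ⟨⟨fun x => mlt_irr _ _ _, fun x y z => mlt_tr _ _ _ _ _⟩,
      fun x y z h1 h2 h3 => mlt_width _ _ _ _ _ (fun h => h1 (e.injective h)) (fun h => h2 (e.injective h))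
        (fun h => h3 (e.injective h))⟩, ?_⟩
    intro v
    rw [sat_trS]
    exact (hΦ _ M0 ⟨mlt_irr _ _, mlt_tr _ _⟩).2 ⟨mc (N * N) N w, fun x P => Iff.rfl, H⟩ _
  · rintro ⟨hn, M, h0, hs⟩
    haveI : Nonempty (Fin n) := ⟨⟨0, hn⟩⟩
    obtain ⟨c, -, H⟩ := (hΦ (Fin n) M (hK _ _ h0)).1 hs
    exact ⟨hn, Fin n, inferInstance, _, _, _, _, _, c, Fintype.card_fin n, H⟩

/-- Every class of partial orders which contains all partial orders of width at most two is universal. -/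
theorem univ_po (K : ∀ A : Type, (Unit → A → A → Prop) → Prop) (hK : ∀ A R, K A R → IsPO (R ()))
    (hK' : ∀ A R, Width2 (R ()) → K A R) : Univ (C2Spec K) := by
  refine univ_of_tiles fun q W => ?_
  obtain ⟨Φ, hΦ⟩ := p2_sentence W
  refine ⟨Polynomial.C 2 * (Polynomial.X * Polynomial.X), szP W,
    ⟨PCol q, Fin 4, inferInstance, inferInstance, Φ, hΦ K hK hK'⟩, fun N hN => ?_⟩
  rw [p2_sizes]
  simp only [Polynomial.eval_mul, Polynomial.eval_C, Polynomial.eval_X]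
  constructor
  · intro h
    exact ⟨N, hN, rfl, h⟩
  · rintro ⟨N', hN', h, ht⟩
    have h1 : N * N = N' * N' := by omega
    have h2 : N = N' := Nat.mul_self_inj.1 h1
    rw [h2]
    exact ht

lemma univ3_po : Univ3 (fun A (R : Unit → A → A → Prop) => IsPO (R ())) := by
  refine ⟨fun o _ => ¬ o () 0 0 ∧ (o () 0 1 → o () 1 2 → o () 0 2), fun A ord => ?_⟩
  constructor
  · intro h v
    exact ⟨h.irr _, h.trans _ _ _⟩
  · intro h
    exact ⟨fun x => (h (fun _ => x)).1, fun x y z hxy hyz => (h ![x, y, z]).2 hxy hyz⟩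

lemma univ3_width2 : Univ3 (fun A (R : Unit → A → A → Prop) => Width2 (R ())) := by
  refine ⟨fun o e => (¬ o () 0 0 ∧ (o () 0 1 → o () 1 2 → o () 0 2)) ∧ (¬ e 0 1 → ¬ e 1 2 → ¬ e 0 2 →
    o () 0 1 ∨ o () 1 0 ∨ o () 1 2 ∨ o () 2 1 ∨ o () 0 2 ∨ o () 2 0), fun A ord => ?_⟩
  constructor
  · intro h v
    exact ⟨⟨h.po.irr _, h.po.trans _ _ _⟩, h.wid _ _ _⟩
  · intro h
    exact ⟨⟨fun x => (h (fun _ => x)).1.1, fun x y z hxy hyz => (h ![x, y, z]).1.2 hxy hyz⟩,
      fun x y z h1 h2 h3 => (h ![x, y, z]).2 h1 h2 h3⟩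

/-- The two-variable logic with counting and a partial order. -/
theorem wild_po :
    (∃ U : Set ℕ, C2Spec (fun A (R : Unit → A → A → Prop) => IsPO (R ())) U ∧ ∀ A : Set ℕ, IsSpectrum A ↔
      ∃ h : Polynomial ℕ, A = {n : ℕ | 1 ≤ n ∧ h.eval n ∈ U}) ∧
    ((∀ A : Set ℕ, C2Spec (fun A (R : Unit → A → A → Prop) => IsPO (R ())) A → IsRudimentary A) ↔
      ∀ A : Set ℕ, IsSpectrum A ↔ (IsRudimentary A ∧ 0 ∉ A)) :=
  wild_of_univ (univ_po _ (fun _ _ h => h) fun _ _ h => h.po) fun _ h => isSpectrum_of_c2Spec univ3_po h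

/-- The two-variable logic with counting and a partial order of width two. -/
theorem wild_width2 :
    (∃ U : Set ℕ, C2Spec (fun A (R : Unit → A → A → Prop) => Width2 (R ())) U ∧ ∀ A : Set ℕ, IsSpectrum A ↔
      ∃ h : Polynomial ℕ, A = {n : ℕ | 1 ≤ n ∧ h.eval n ∈ U}) ∧
    ((∀ A : Set ℕ, C2Spec (fun A (R : Unit → A → A → Prop) => Width2 (R ())) A → IsRudimentary A) ↔
      ∀ A : Set ℕ, IsSpectrum A ↔ (IsRudimentary A ∧ 0 ∉ A)) :=
  wild_of_univ (univ_po _ (fun _ _ h => h.po) fun _ _ h => h) fun _ h => isSpectrum_of_c2Spec univ3_width2 h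

end Pool.Agent.Helper74.P2
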