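import Pool.Agent.Helper74.W2O.Mod

/-!
# A partial order of width two: the axioms of a word with a shift (wild half of C2)

The poset has two chains: `a 0 < a 1 < …` and `b 0 < b 1 < …`; `b q < a p` iff `q < p`, and `a p < b q` iff
`p + N ≤ q`. All this is forced by four bijections (`P`, `Q`, `F`, `G`) and the comparabilities.
-/

set_option autoImplicit false

namespace Pool.Agent.Helper74.P2

open Pool.Agent.Helper29.Prefix Pool.Agent.Helper74.W2O

/-- the colours -/
structure PCol (q : ℕ) where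
  /-- the letter -/
  l : Lt (Fin q)
  /-- first chain -/
  t : Bool
  /-- first row -/
  y : Bool
  /-- last row -/
  z : Bool
  /-- first element of the first chain -/
  f : Bool
  /-- last element of the second chain -/
  e : Bool

variable {q : ℕ}

/-- consecutive letters -/
def QR (W : Wang (Fin q)) (a b : PCol q) : Prop :=
  hOK W a.l b.l ∧ (a.y = true → (b.y = true ↔ a.l.2.2.1 = false)) ∧ (a.y = false → b.y = false) ∧
  (a.z = true → b.z = true ∧ b.l.2.1 = false) ∧ (a.z = false → b.z = true → b.l.2.1 = true)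

/-- conditions on one element -/
def PL (W : Wang (Fin q)) (c : PCol q) : Prop :=
  uOK W c.l ∧ (c.y = true → W.b c.l.1) ∧ (c.z = true → W.t c.l.1) ∧
  (c.f = true → c.t = true ∧ c.y = true ∧ c.l.2.1 = true ∧ c.l.2.2.2 = 1 ∧ W.c c.l.1) ∧
  (c.e = true → c.t = false ∧ c.z = true ∧ c.l.2.2.1 = true ∧ c.l.2.2.2 = 1)

/-- not in the last row or the first element of a row -/
def GA (c : PCol q) : Prop := c.z = false ∨ c.l.2.1 = true

/-- not in the first row or the last element of a row -/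
def GB (c : PCol q) : Prop := c.y = false ∨ c.l.2.2.1 = true

/-- the axioms -/
structure PAx (W : Wang (Fin q)) {M : Type} (lt P Q F G : M → M → Prop) (c : M → PCol q) : Prop where
  irr : ∀ x, ¬ lt x x
  tr : ∀ x y z, lt x y → lt y z → lt x z
  ch : ∀ x y, (c x).t = (c y).t → x = y ∨ lt x y ∨ lt y x
  pP : ∀ x y, P x y → (c x).t = true ∧ (c y).t = false ∧ ¬ lt y x ∧ (c x).l = (c y).l ∧ (c x).y = (c y).y ∧
    (c x).z = (c y).z
  P1 : ∀ x, (c x).t = true → ∃! y, P x y
  P2 : ∀ y, (c y).t = false → ∃! x, P x y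
  qQ : ∀ x y, Q x y → (c x).t = true ∧ (c y).t = false ∧ (c x).f = false ∧ (c y).e = false ∧ lt y x ∧
    QR W (c y) (c x)
  Q1 : ∀ x, (c x).t = true ∧ (c x).f = false → ∃! y, Q x y
  Q2 : ∀ y, (c y).t = false ∧ (c y).e = false → ∃! x, Q x y
  fF : ∀ x y, F x y → (c x).t = true ∧ (c y).t = false ∧ (c x).z = false ∧ (c y).y = false ∧ lt x y ∧
    vOK W (c x).l (c y).l
  F1 : ∀ x, (c x).t = true ∧ (c x).z = false → ∃! y, F x y
  F2 : ∀ y, (c y).t = false ∧ (c y).y = false → ∃! x, F x y
  gG : ∀ x y, G x y → (c x).t = true ∧ (c y).t = false ∧ GA (c x) ∧ GB (c y) ∧ ¬ lt x y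
  G1 : ∀ x, (c x).t = true ∧ GA (c x) → ∃! y, G x y
  G2 : ∀ y, (c y).t = false ∧ GB (c y) → ∃! x, G x y
  of : ∃! x, (c x).f = true
  oe : ∃! x, (c x).e = true
  pl : ∀ x, PL W (c x)

/-- the sizes of the models -/
def szP (W : Wang (Fin q)) : Set ℕ :=
  {n : ℕ | 1 ≤ n ∧ ∃ (M : Type) (_ : Fintype M) (lt P Q F G : M → M → Prop) (c : M → PCol q),
    Fintype.card M = n ∧ PAx W lt P Q F G c}

/-- enumeration of a finite chain -/
lemma exists_enum {M : Type} [Fintype M] [Nonempty M] {lt : M → M → Prop} (irr : ∀ x, ¬ lt x x)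
    (tr : ∀ x y z, lt x y → lt y z → lt x z) (S : M → Prop)
    (hS : ∀ x y, S x → S y → x = y ∨ lt x y ∨ lt y x) :
    ∃ (n : ℕ) (a : ℕ → M), Nat.card {x // S x} = n ∧ (∀ i, i < n → S (a i)) ∧
      (∀ x, S x → ∃ i, i < n ∧ a i = x) ∧ ∀ i j, i < n → j < n → (lt (a i) (a j) ↔ i < j) := by
  classical
  have hl : Lin (fun x y : {x // S x} => lt x.1 y.1) :=
    ⟨fun x => irr x.1, fun x y z => tr _ _ _, fun x y hxy => by
      rcases hS x.1 y.1 x.2 y.2 with h | h
      · exact absurd (Subtype.ext h) hxy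
      · exact h⟩
  obtain ⟨rk, h0, h1, h2, h3⟩ := exists_rank hl
  choose u hu using h3
  refine ⟨Fintype.card {x // S x}, fun i => if h : i < Fintype.card {x // S x} then (u i h).1 else
    Classical.arbitrary M, by simp, ?_, ?_, ?_⟩
  · intro i hi
    simp only [dif_pos hi]
    exact (u i hi).2
  · intro x hx
    refine ⟨rk ⟨x, hx⟩, h0 _, ?_⟩
    simp only [dif_pos (h0 ⟨x, hx⟩)]
    have : u (rk ⟨x, hx⟩) (h0 _) = ⟨x, hx⟩ := h1 _ _ (hu _ (h0 _))
    rw [this]
  · intro i j hi hj
    simp only [dif_pos hi, dif_pos hj]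
    have := h2 (u i hi) (u j hj)
    rw [hu i hi, hu j hj] at this
    exact this

/-- pigeonhole for intervals -/
lemma pig {R : ℕ → ℕ → Prop} (s k s' k' : ℕ) (h1 : ∀ i, s ≤ i → i < s + k → ∃ j, R i j ∧ s' ≤ j ∧ j < s' + k')
    (h2 : ∀ i i' j, R i j → R i' j → i = i') : k ≤ k' := by
  classical
  have h3 : ∀ i, ∃ j, s ≤ i → i < s + k → R i j ∧ s' ≤ j ∧ j < s' + k' := by
    intro i
    by_cases h : s ≤ i ∧ i < s + k
    · obtain ⟨j, hj⟩ := h1 i h.1 h.2
      exact ⟨j, fun _ _ => hj⟩
    · exact ⟨0, fun a b => absurd ⟨a, b⟩ h⟩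
  choose g hg using h3
  have h4 : (Finset.Ico s (s + k)).card ≤ (Finset.Ico s' (s' + k')).card := by
    refine Finset.card_le_card_of_injOn g ?_ ?_
    · intro i hi
      have hi' := Finset.mem_Ico.1 (Finset.mem_coe.1 hi)
      have := hg i hi'.1 hi'.2
      exact Finset.mem_coe.2 (Finset.mem_Ico.2 this.2)
    · intro i hi i' hi' hii
      have h5 := Finset.mem_Ico.1 (Finset.mem_coe.1 hi)
      have h6 := Finset.mem_Ico.1 (Finset.mem_coe.1 hi')
      have h7 := (hg i h5.1 h5.2).1
      have h8 := (hg i' h6.1 h6.2).1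
      rw [← hii] at h8
      exact h2 _ _ _ h7 h8
  simpa using h4

/-- final segments -/
lemma fin_seg (Z : ℕ → Prop) : ∀ n : ℕ, (∀ p, p + 1 < n → Z p → Z (p + 1)) →
    ∃ K, K ≤ n ∧ ∀ p, p < n → (Z p ↔ K ≤ p) := by
  intro n
  induction n with
  | zero => exact fun _ => ⟨0, le_rfl, fun p hp => absurd hp (Nat.not_lt_zero p)⟩
  | succ n ih =>
    intro h
    obtain ⟨K, hK, hK'⟩ := ih fun p hp => h p (by omega)
    rcases Nat.lt_or_ge K n with hlt | hge
    · refine ⟨K, by omega, fun p hp => ?_⟩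
      rcases Nat.lt_or_ge p n with h1 | h1
      · exact hK' p h1
      · have h2 : p = n := by omega
        subst h2
        have h3 : Z (p - 1) := (hK' (p - 1) (by omega)).2 (by omega)
        have h4 := h (p - 1) (by omega) h3
        rw [Nat.sub_add_cancel (by omega)] at h4
        exact ⟨fun _ => by omega, fun _ => h4⟩
    · by_cases hZ : Z n
      · refine ⟨n, by omega, fun p hp => ?_⟩
        rcases Nat.lt_or_ge p n with h1 | h1
        · rw [hK' p h1]
          constructor <;> intro _ <;> omega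
        · have h2 : p = n := by omega
          subst h2
          exact ⟨fun _ => le_rfl, fun _ => hZ⟩
      · refine ⟨n + 1, by omega, fun p hp => ?_⟩
        rcases Nat.lt_or_ge p n with h1 | h1
        · rw [hK' p h1]
          constructor <;> intro _ <;> omega
        · have h2 : p = n := by omega
          subst h2
          exact ⟨fun h => absurd h hZ, fun h => by omega⟩

end Pool.Agent.Helper74.P2
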