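import Pool.Agent.Helper74.P2.Sound

/-!
# A partial order of width two: the model of a word with a shift
-/

set_option autoImplicit false

namespace Pool.Agent.Helper74.P2

open Pool.Agent.Helper29.Prefix Pool.Agent.Helper74.W2O

variable {q : ℕ} {W : Wang (Fin q)}

lemma wd_last {Γ : Type} {W : Wang Γ} {n N : ℕ} {w : ℕ → Lt Γ} (H : Wd W n N w) :
    ∀ p, p < n → ((w p).2.2.1 = true ↔ N ∣ p + 1) := by
  have hN := H.hN
  intro p
  induction p using Nat.strong_induction_on with
  | _ p ih =>
    intro hp
    by_cases h1 : p < N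
    · rw [H.l p h1]
      constructor
      · intro h; rw [h]
      · intro h
        have := Nat.le_of_dvd (Nat.succ_pos p) h
        omega
    · have h2 := (H.v (p - N) (by omega)).1
      rw [Nat.sub_add_cancel (by omega)] at h2
      rw [← h2, ih (p - N) (by omega) (by omega)]
      have h3 : p + 1 = (p - N + 1) + N := by omega
      rw [h3, Nat.dvd_add_self_right]

/-- order of the model -/
def mlt (n N : ℕ) (x y : Fin n × Bool) : Prop :=
  (x.2 = y.2 ∧ x.1.1 < y.1.1) ∨ (x.2 = true ∧ y.2 = false ∧ x.1.1 + N ≤ y.1.1) ∨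
    (x.2 = false ∧ y.2 = true ∧ x.1.1 < y.1.1)

/-- colours of the model -/
def mc (n N : ℕ) (w : ℕ → Lt (Fin q)) (x : Fin n × Bool) : PCol q where
  l := w x.1.1
  t := x.2
  y := decide (x.1.1 < N)
  z := decide (n ≤ x.1.1 + N)
  f := x.2 && decide (x.1.1 = 0)
  e := !x.2 && decide (x.1.1 + 1 = n)

/-- links of the model -/
def ml (n : ℕ) (u v : ℕ) (x y : Fin n × Bool) : Prop :=
  x.2 = true ∧ y.2 = false ∧ x.1.1 + u = y.1.1 + v

lemma mlt_irr (n N : ℕ) (x : Fin n × Bool) : ¬ mlt n N x x := by
  rcases x with ⟨x, s⟩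
  unfold mlt
  rcases s with _ | _ <;> simp

lemma mlt_tr (n N : ℕ) (x y z : Fin n × Bool) (h1 : mlt n N x y) (h2 : mlt n N y z) : mlt n N x z := by
  rcases x with ⟨x, s⟩
  rcases y with ⟨y, s'⟩
  rcases z with ⟨z, s''⟩
  unfold mlt at *
  rcases s with _ | _ <;> rcases s' with _ | _ <;> rcases s'' with _ | _ <;>
    simp only [true_and, false_and, and_false, or_false, false_or, and_true, reduceCtorEq] at h1 h2 ⊢ <;> omega

lemma link_ex {n u v : ℕ} {x : Fin n × Bool} (hx : x.2 = true) {j : ℕ} (hj : j < n) (h : x.1.1 + u = j + v) :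
    ∃! y, ml n u v x y := by
  refine ⟨(⟨j, hj⟩, false), ⟨hx, rfl, h⟩, ?_⟩
  rintro ⟨y, s⟩ ⟨_, h1, h2⟩
  refine Prod.ext (Fin.ext ?_) h1
  show y.1 = j
  change x.1.1 + u = y.1 + v at h2
  omega

lemma link_ex' {n u v : ℕ} {y : Fin n × Bool} (hy : y.2 = false) {i : ℕ} (hi : i < n) (h : i + u = y.1.1 + v) :
    ∃! x, ml n u v x y := by
  refine ⟨(⟨i, hi⟩, true), ⟨rfl, hy, h⟩, ?_⟩
  rintro ⟨x, s⟩ ⟨h1, _, h2⟩
  refine Prod.ext (Fin.ext ?_) h1
  show x.1 = i
  change x.1 + u = y.1.1 + v at h2
  omega

theorem model {n N : ℕ} {w : ℕ → Lt (Fin q)} (hdn : N ∣ n) (H : Wd W n N w) :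
    PAx W (mlt n N) (ml n 0 0) (ml n 0 1) (ml n N 0) (ml n N 1) (mc n N w) := by
  have hN := H.hN
  have hn := H.hn
  have hl := wd_last H
  have hfirst : ∀ p, p + 1 < n → ((w (p + 1)).2.1 = true ↔ N ∣ p + 1) := by
    intro p hp
    rw [← (H.h p hp).1, hl p (by omega)]
  have hdiv : ∀ p, n - N < p → p < n → ¬ N ∣ p := by
    intro p h1 h2 h3
    have h4 : N ∣ n - p := (Nat.dvd_sub hdn h3)
    have := Nat.le_of_dvd (by omega) h4
    omega
  have hdnN : N ∣ n - N := Nat.dvd_sub hdn (dvd_refl N)
  -- domain of `G`
  have hGA : ∀ x : Fin n × Bool, GA (mc n N w x) ↔ x.1.1 ≤ n - N := by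
    rintro ⟨⟨p, hp⟩, s⟩
    show (decide (n ≤ p + N) = false ∨ (w p).2.1 = true) ↔ p ≤ n - N
    rw [decide_eq_false_iff_not]
    constructor
    · rintro (h | h)
      · omega
      · by_contra h1
        rcases p with _ | p
        · omega
        · exact hdiv (p + 1) (by omega) hp ((hfirst p hp).1 h)
    · intro h
      by_cases h1 : p < n - N
      · left; omega
      · right
        have h2 : p = n - N := by omega
        rcases p with _ | p
        · exact H.s.1
        · rw [hfirst p hp, h2]
          exact hdnN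
  have hGB : ∀ x : Fin n × Bool, GB (mc n N w x) ↔ N ≤ x.1.1 + 1 := by
    rintro ⟨⟨p, hp⟩, s⟩
    show (decide (p < N) = false ∨ (w p).2.2.1 = true) ↔ N ≤ p + 1
    rw [decide_eq_false_iff_not]
    constructor
    · rintro (h | h)
      · omega
      · exact Nat.le_of_dvd (by omega) ((hl p hp).1 h)
    · intro h
      by_cases h1 : N ≤ p
      · left; omega
      · right
        exact (H.l p (by omega)).2 (by omega)
  exact
  { irr := mlt_irr n N
    tr := mlt_tr n N
    ch := by
      rintro ⟨x, s⟩ ⟨y, s'⟩ h
      have h' : s = s' := h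
      subst h'
      unfold mlt
      by_cases hxy : x = y
      · left; rw [hxy]
      · right
        have : x.1 ≠ y.1 := fun h => hxy (Fin.ext h)
        rcases Nat.lt_or_gt_of_ne this with h1 | h1
        · exact Or.inl (Or.inl ⟨rfl, h1⟩)
        · exact Or.inr (Or.inl ⟨rfl, h1⟩)
    pP := by
      rintro ⟨x, s⟩ ⟨y, s'⟩ ⟨h1, h2, h3⟩
      change s = true at h1
      change s' = false at h2
      change x.1 + 0 = y.1 + 0 at h3
      have h4 : x = y := Fin.ext (by omega)
      subst h1 h2 h4
      refine ⟨rfl, rfl, ?_, rfl, rfl, rfl⟩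
      unfold mlt
      simp
    P1 := fun x hx => link_ex hx x.1.2 rfl
    P2 := fun y hy => link_ex' hy y.1.2 rfl
    qQ := by
      rintro ⟨⟨x, hx⟩, s⟩ ⟨⟨y, hy⟩, s'⟩ ⟨h1, h2, h3⟩
      change s = true at h1
      change s' = false at h2
      change x + 0 = y + 1 at h3
      obtain rfl : x = y + 1 := by omega
      subst h1 h2
      refine ⟨rfl, rfl, ?_, ?_, ?_, ?_⟩
      · show (true && decide (y + 1 = 0)) = false
        simp
      · show (!false && decide (y + 1 = n)) = false
        simp; omega
      · exact Or.inr (Or.inr ⟨rfl, rfl, by show y < y + 1; omega⟩)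
      · refine ⟨H.h y hx, ?_, ?_, ?_, ?_⟩
        · intro h
          change decide (y < N) = true at h
          rw [decide_eq_true_eq] at h
          show decide (y + 1 < N) = true ↔ (w y).2.2.1 = false
          rw [decide_eq_true_eq]
          have := H.l y h
          constructor
          · intro h4
            by_contra h5
            have := this.1 (by simpa using h5)
            omega
          · intro h4
            by_contra h5
            rw [this.2 (by omega)] at h4
            exact absurd h4 (by decide)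
        · intro h
          change decide (y < N) = false at h
          rw [decide_eq_false_iff_not] at h
          show decide (y + 1 < N) = false
          rw [decide_eq_false_iff_not]
          omega
        · intro h
          change decide (n ≤ y + N) = true at h
          rw [decide_eq_true_eq] at h
          refine ⟨?_, ?_⟩
          · show decide (n ≤ y + 1 + N) = true
            rw [decide_eq_true_eq]
            omega
          · show (w (y + 1)).2.1 = false
            by_contra h4
            have h5 := (hfirst y hx).1 (by simpa using h4)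
            exact hdiv (y + 1) (by omega) hx h5
        · intro h h'
          change decide (n ≤ y + N) = false at h
          rw [decide_eq_false_iff_not] at h
          change decide (n ≤ y + 1 + N) = true at h'
          rw [decide_eq_true_eq] at h'
          show (w (y + 1)).2.1 = true
          rw [hfirst y hx, show y + 1 = n - N by omega]
          exact hdnN
    Q1 := by
      rintro ⟨⟨x, hx⟩, s⟩ ⟨h1, h2⟩
      change s = true at h1
      subst h1
      change (true && decide (x = 0)) = false at h2
      simp only [Bool.true_and, decide_eq_false_iff_not] at h2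
      exact link_ex rfl (show x - 1 < n by omega) (show x + 0 = x - 1 + 1 by omega)
    Q2 := by
      rintro ⟨⟨y, hy⟩, s⟩ ⟨h1, h2⟩
      change s = false at h1
      subst h1
      change (!false && decide (y + 1 = n)) = false at h2
      simp only [Bool.not_false, Bool.true_and, decide_eq_false_iff_not] at h2
      exact link_ex' rfl (show y + 1 < n by omega) (show y + 1 + 0 = y + 1 by omega)
    fF := by
      rintro ⟨⟨x, hx⟩, s⟩ ⟨⟨y, hy⟩, s'⟩ ⟨h1, h2, h3⟩
      change s = true at h1
      change s' = false at h2
      change x + N = y + 0 at h3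
      obtain rfl : y = x + N := by omega
      subst h1 h2
      refine ⟨rfl, rfl, ?_, ?_, ?_, H.v x hy⟩
      · show decide (n ≤ x + N) = false
        rw [decide_eq_false_iff_not]; omega
      · show decide (x + N < N) = false
        rw [decide_eq_false_iff_not]; omega
      · exact Or.inr (Or.inl ⟨rfl, rfl, le_rfl⟩)
    F1 := by
      rintro ⟨⟨x, hx⟩, s⟩ ⟨h1, h2⟩
      change s = true at h1
      subst h1
      change decide (n ≤ x + N) = false at h2
      rw [decide_eq_false_iff_not] at h2
      exact link_ex rfl (show x + N < n by omega) (show x + N = x + N + 0 by omega)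
    F2 := by
      rintro ⟨⟨y, hy⟩, s⟩ ⟨h1, h2⟩
      change s = false at h1
      subst h1
      change decide (y < N) = false at h2
      rw [decide_eq_false_iff_not] at h2
      exact link_ex' rfl (show y - N < n by omega) (show y - N + N = y + 0 by omega)
    gG := by
      rintro ⟨⟨x, hx⟩, s⟩ ⟨⟨y, hy⟩, s'⟩ ⟨h1, h2, h3⟩
      change s = true at h1
      change s' = false at h2
      change x + N = y + 1 at h3
      subst h1 h2
      refine ⟨rfl, rfl, (hGA _).2 (by show x ≤ n - N; omega), (hGB _).2 (by show N ≤ y + 1; omega), ?_⟩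
      unfold mlt
      simp
      omega
    G1 := by
      rintro ⟨⟨x, hx⟩, s⟩ ⟨h1, h2⟩
      change s = true at h1
      subst h1
      have h3 := (hGA _).1 h2
      change x ≤ n - N at h3
      exact link_ex rfl (show x + N - 1 < n by omega) (show x + N = x + N - 1 + 1 by omega)
    G2 := by
      rintro ⟨⟨y, hy⟩, s⟩ ⟨h1, h2⟩
      change s = false at h1
      subst h1
      have h3 := (hGB _).1 h2
      change N ≤ y + 1 at h3
      exact link_ex' rfl (show y + 1 - N < n by omega) (show y + 1 - N + N = y + 1 by omega)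
    of := by
      refine ⟨(⟨0, by omega⟩, true), rfl, ?_⟩
      rintro ⟨⟨x, hx⟩, s⟩ h
      change (s && decide (x = 0)) = true at h
      simp only [Bool.and_eq_true, decide_eq_true_eq] at h
      obtain ⟨rfl, rfl⟩ := h
      rfl
    oe := by
      refine ⟨(⟨n - 1, by omega⟩, false), ?_, ?_⟩
      · show (!false && decide (n - 1 + 1 = n)) = true
        simp; omega
      rintro ⟨⟨x, hx⟩, s⟩ h
      change (!s && decide (x + 1 = n)) = true at h
      simp only [Bool.and_eq_true, decide_eq_true_eq, Bool.not_eq_true'] at h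
      obtain ⟨rfl, h2⟩ := h
      refine Prod.ext (Fin.ext ?_) rfl
      show x = n - 1
      omega
    pl := by
      rintro ⟨⟨x, hx⟩, s⟩
      refine ⟨H.u x hx, ?_, ?_, ?_, ?_⟩
      · intro h
        change decide (x < N) = true at h
        exact H.b x (of_decide_eq_true h)
      · intro h
        change decide (n ≤ x + N) = true at h
        exact H.t x hx (of_decide_eq_true h)
      · intro h
        change (s && decide (x = 0)) = true at h
        simp only [Bool.and_eq_true, decide_eq_true_eq] at h
        obtain ⟨rfl, rfl⟩ := h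
        refine ⟨rfl, ?_, H.s.1, H.s.2.1, H.s.2.2⟩
        show decide (0 < N) = true
        rw [decide_eq_true_eq]
        omega
      · intro h
        change (!s && decide (x + 1 = n)) = true at h
        simp only [Bool.and_eq_true, decide_eq_true_eq, Bool.not_eq_true'] at h
        obtain ⟨rfl, h2⟩ := h
        have h3 : x = n - 1 := by omega
        subst h3
        refine ⟨rfl, ?_, H.e.1, H.e.2⟩
        show decide (n ≤ n - 1 + N) = true
        rw [decide_eq_true_eq]
        omega }

/-- in the model any three elements contain two comparable ones -/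
lemma mlt_width (n N : ℕ) (x y z : Fin n × Bool) (hxy : x ≠ y) (hyz : y ≠ z) (hxz : x ≠ z) :
    mlt n N x y ∨ mlt n N y x ∨ mlt n N y z ∨ mlt n N z y ∨ mlt n N x z ∨ mlt n N z x := by
  rcases x with ⟨x, s⟩
  rcases y with ⟨y, s'⟩
  rcases z with ⟨z, s''⟩
  have key : ∀ (u v : Fin n) (s : Bool), (u, s) ≠ (v, s) → mlt n N (u, s) (v, s) ∨ mlt n N (v, s) (u, s) := by
    intro u v s h
    have h' : u.1 ≠ v.1 := fun h1 => h (by rw [Fin.ext h1])
    rcases Nat.lt_or_gt_of_ne h' with h1 | h1
    · exact Or.inl (Or.inl ⟨rfl, h1⟩)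
    · exact Or.inr (Or.inl ⟨rfl, h1⟩)
  rcases s with _ | _ <;> rcases s' with _ | _ <;> rcases s'' with _ | _
  · rcases key x y _ hxy with h | h <;> tauto
  · rcases key x y _ hxy with h | h <;> tauto
  · rcases key x z _ hxz with h | h <;> tauto
  · rcases key y z _ hyz with h | h <;> tauto
  · rcases key y z _ hyz with h | h <;> tauto
  · rcases key x z _ hxz with h | h <;> tauto
  · rcases key x y _ hxy with h | h <;> tauto
  · rcases key x y _ hxy with h | h <;> tauto

/-- the sizes of the models are the `2 N²`, `N` the side of a tiled square -/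
theorem p2_sizes (W : Wang (Fin q)) (m : ℕ) : m ∈ szP W ↔ ∃ N, 1 ≤ N ∧ m = 2 * (N * N) ∧ Tiles W N := by
  constructor
  · rintro ⟨hm, M, _, lt, P, Q, F, G, c, hcard, H⟩
    obtain ⟨n, a, b, h1, E⟩ := exists_enu H
    obtain ⟨N, hw⟩ := E.words
    obtain ⟨h2, h3⟩ := hw.tiles
    exact ⟨N, hw.hN, by omega, h3⟩
  · rintro ⟨N, hN, rfl, ht⟩
    obtain ⟨w, hw⟩ := wd_of_tiles hN ht
    have := Nat.mul_pos hN hN
    refine ⟨by omega, Fin (N * N) × Bool, inferInstance, _, _, _, _, _, _, ?_, model (Nat.dvd_mul_right N N) hw⟩
    rw [Fintype.card_prod, Fintype.card_fin, Fintype.card_bool]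
    ring

end Pool.Agent.Helper74.P2
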