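import Pool.Agent.Helper74.P2.Ax

/-!
# A partial order of width two: models are words with a shift
-/

set_option autoImplicit false

namespace Pool.Agent.Helper74.P2

open Pool.Agent.Helper29.Prefix Pool.Agent.Helper74.W2O

variable {q : ℕ} {W : Wang (Fin q)} {M : Type} {lt P Q F G : M → M → Prop} {c : M → PCol q}

/-- two enumerated chains -/
structure Enu (W : Wang (Fin q)) (lt P Q F G : M → M → Prop) (c : M → PCol q) (n : ℕ) (a b : ℕ → M) : Prop where
  H : PAx W lt P Q F G c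
  a1 : ∀ i, i < n → (c (a i)).t = true
  a2 : ∀ x, (c x).t = true → ∃ i, i < n ∧ a i = x
  a3 : ∀ i j, i < n → j < n → (lt (a i) (a j) ↔ i < j)
  b1 : ∀ i, i < n → (c (b i)).t = false
  b2 : ∀ x, (c x).t = false → ∃ i, i < n ∧ b i = x
  b3 : ∀ i j, i < n → j < n → (lt (b i) (b j) ↔ i < j)

theorem exists_enu [Fintype M] (H : PAx W lt P Q F G c) :
    ∃ (n : ℕ) (a b : ℕ → M), Fintype.card M = 2 * n ∧ Enu W lt P Q F G c n a b := by
  classical
  obtain ⟨x0, -, -⟩ := H.of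
  haveI : Nonempty M := ⟨x0⟩
  obtain ⟨n, a, hn, a1, a2, a3⟩ := exists_enum H.irr H.tr (fun x => (c x).t = true)
    (fun x y hx hy => H.ch x y (hx.trans hy.symm))
  obtain ⟨n', b, hn', b1, b2, b3⟩ := exists_enum H.irr H.tr (fun x => ¬ (c x).t = true)
    (fun x y hx hy => H.ch x y (by
      have h1 : (c x).t = false := by simpa using hx
      have h2 : (c y).t = false := by simpa using hy
      rw [h1, h2]))
  have h1 : n ≤ n' := by
    refine pig (R := fun i j => i < n ∧ j < n' ∧ P (a i) (b j)) 0 n 0 n' ?_ ?_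
    · intro i _ hi
      obtain ⟨y, hy, -⟩ := H.P1 (a i) (a1 i (by omega))
      obtain ⟨j, hj, rfl⟩ := b2 y (by rw [(H.pP _ _ hy).2.1]; decide)
      exact ⟨j, ⟨by omega, hj, hy⟩, by omega, by omega⟩
    · rintro i i' j ⟨hi, hj, h⟩ ⟨hi', _, h'⟩
      have h2 := (H.P2 (b j) (by simpa using b1 j hj)).unique h h'
      by_contra hne
      rcases Nat.lt_or_gt_of_ne hne with h3 | h3
      · exact H.irr _ (h2 ▸ (a3 i i' hi hi').2 h3)
      · exact H.irr _ (h2 ▸ (a3 i' i hi' hi).2 h3)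
  have h2 : n' ≤ n := by
    refine pig (R := fun j i => i < n ∧ j < n' ∧ P (a i) (b j)) 0 n' 0 n ?_ ?_
    · intro j _ hj
      obtain ⟨x, hx, -⟩ := H.P2 (b j) (by simpa using b1 j (by omega))
      obtain ⟨i, hi, rfl⟩ := a2 x (H.pP _ _ hx).1
      exact ⟨i, ⟨hi, by omega, hx⟩, by omega, by omega⟩
    · rintro j j' i ⟨hi, hj, h⟩ ⟨_, hj', h'⟩
      have h2 := (H.P1 (a i) (a1 i hi)).unique h h'
      by_contra hne
      rcases Nat.lt_or_gt_of_ne hne with h3 | h3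
      · exact H.irr _ (h2 ▸ (b3 j j' hj hj').2 h3)
      · exact H.irr _ (h2 ▸ (b3 j' j hj' hj).2 h3)
  obtain rfl : n = n' := le_antisymm h1 h2
  refine ⟨n, a, b, ?_, H, a1, a2, a3, fun i hi => by simpa using b1 i hi, fun x hx => b2 x (by rw [hx]; decide), b3⟩
  have h3 : Nat.card M = Nat.card ({x // (c x).t = true} ⊕ {x // ¬ (c x).t = true}) :=
    Nat.card_congr (Equiv.sumCompl _).symm
  rw [Nat.card_sum, hn, hn', Nat.card_eq_fintype_card] at h3
  omega

namespace Enu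

variable {n : ℕ} {a b : ℕ → M}

lemma ainj (E : Enu W lt P Q F G c n a b) {i j : ℕ} (hi : i < n) (hj : j < n) (h : a i = a j) : i = j := by
  by_contra hne
  rcases Nat.lt_or_gt_of_ne hne with h3 | h3
  · exact E.H.irr _ (h ▸ (E.a3 i j hi hj).2 h3)
  · exact E.H.irr _ (h ▸ (E.a3 j i hj hi).2 h3)

lemma binj (E : Enu W lt P Q F G c n a b) {i j : ℕ} (hi : i < n) (hj : j < n) (h : b i = b j) : i = j := by
  by_contra hne
  rcases Nat.lt_or_gt_of_ne hne with h3 | h3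
  · exact E.H.irr _ (h ▸ (E.b3 i j hi hj).2 h3)
  · exact E.H.irr _ (h ▸ (E.b3 j i hj hi).2 h3)

lemma D (E : Enu W lt P Q F G c n a b) {p p' r r' : ℕ} (hp' : p' < n) (hr : r < n)
    (h1 : p ≤ p') (h2 : r' ≤ r) (h : lt (b r) (a p)) : lt (b r') (a p') := by
  have h3 : lt (b r) (a p') := by
    rcases Nat.eq_or_lt_of_le h1 with rfl | h4
    · exact h
    · exact E.H.tr _ _ _ h ((E.a3 _ _ (by omega) hp').2 h4)
  rcases Nat.eq_or_lt_of_le h2 with rfl | h4
  · exact h3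
  · exact E.H.tr _ _ _ ((E.b3 _ _ (by omega) hr).2 h4) h3

lemma U (E : Enu W lt P Q F G c n a b) {p p' r r' : ℕ} (hp : p < n) (hr' : r' < n)
    (h1 : p' ≤ p) (h2 : r ≤ r') (h : lt (a p) (b r)) : lt (a p') (b r') := by
  have h3 : lt (a p') (b r) := by
    rcases Nat.eq_or_lt_of_le h1 with rfl | h4
    · exact h
    · exact E.H.tr _ _ _ ((E.a3 _ _ (by omega) hp).2 h4) h
  rcases Nat.eq_or_lt_of_le h2 with rfl | h4
  · exact h3
  · exact E.H.tr _ _ _ h3 ((E.b3 _ _ (by omega) hr').2 h4)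

lemma hP (E : Enu W lt P Q F G c n a b) {i : ℕ} (hi : i < n) : ∃ j, j < n ∧ P (a i) (b j) := by
  obtain ⟨y, hy, -⟩ := E.H.P1 (a i) (E.a1 i hi)
  obtain ⟨j, hj, rfl⟩ := E.b2 y (E.H.pP _ _ hy).2.1
  exact ⟨j, hj, hy⟩

lemma d1 (E : Enu W lt P Q F G c n a b) {p : ℕ} (hp : p < n) : ¬ lt (b p) (a p) := by
  intro h
  have := pig (R := fun i j => i < n ∧ j < n ∧ P (a i) (b j)) p (n - p) (p + 1) (n - p - 1) ?_ ?_
  · omega
  · intro i h1 h2
    obtain ⟨j, hj, hij⟩ := E.hP (i := i) (by omega)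
    refine ⟨j, ⟨by omega, hj, hij⟩, ?_, by omega⟩
    by_contra h3
    exact (E.H.pP _ _ hij).2.2.1 (E.D (by omega) hp h1 (by omega) h)
  · rintro i i' j ⟨hi, hj, h⟩ ⟨hi', _, h'⟩
    exact E.ainj hi hi' ((E.H.P2 (b j) (E.b1 j hj)).unique h h')

lemma n1 (E : Enu W lt P Q F G c n a b) : 1 ≤ n := by
  obtain ⟨x0, h0, -⟩ := E.H.of
  obtain ⟨i, hi, -⟩ := E.a2 x0 ((E.H.pl x0).2.2.2.1 h0).1
  omega

lemma f0 (E : Enu W lt P Q F G c n a b) : (c (a 0)).f = true := by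
  have hn := E.n1
  by_contra h
  obtain ⟨y, hy, -⟩ := E.H.Q1 (a 0) ⟨E.a1 0 (by omega), by simpa using h⟩
  obtain ⟨h1, h2, h3, h4, h5, h6⟩ := E.H.qQ _ _ hy
  obtain ⟨j, hj, rfl⟩ := E.b2 y h2
  exact E.d1 (p := 0) (by omega) (E.D (by omega) hj le_rfl (Nat.zero_le j) h5)

lemma f1 (E : Enu W lt P Q F G c n a b) {p : ℕ} (hp : p < n) (h0 : 1 ≤ p) : (c (a p)).f = false := by
  by_contra h
  have := E.ainj hp (by omega) (E.H.of.unique (show (c (a p)).f = true by simpa using h) E.f0)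
  omega

lemma e0 (E : Enu W lt P Q F G c n a b) : (c (b (n - 1))).e = true := by
  have hn := E.n1
  by_contra h
  obtain ⟨x, hx, -⟩ := E.H.Q2 (b (n - 1)) ⟨E.b1 (n - 1) (by omega), by simpa using h⟩
  obtain ⟨h1, h2, h3, h4, h5, h6⟩ := E.H.qQ _ _ hx
  obtain ⟨i, hi, rfl⟩ := E.a2 x h1
  exact E.d1 hi (E.D hi (show n - 1 < n by omega) le_rfl (by omega) h5)

lemma hQ (E : Enu W lt P Q F G c n a b) {i : ℕ} (hi : i < n) (h0 : 1 ≤ i) :
    ∃ j, j < i ∧ Q (a i) (b j) := by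
  obtain ⟨y, hy, -⟩ := E.H.Q1 (a i) ⟨E.a1 i hi, E.f1 hi h0⟩
  obtain ⟨h1, h2, h3, h4, h5, h6⟩ := E.H.qQ _ _ hy
  obtain ⟨j, hj, rfl⟩ := E.b2 y h2
  refine ⟨j, ?_, hy⟩
  by_contra h
  exact E.d1 hi (E.D hi hj le_rfl (by omega) h5)

lemma qinj (E : Enu W lt P Q F G c n a b) {i i' j : ℕ} (hi : i < n) (hi' : i' < n) (h : Q (a i) (b j))
    (h' : Q (a i') (b j)) : i = i' :=
  E.ainj hi hi' ((E.H.Q2 (b j) ⟨(E.H.qQ _ _ h).2.1, (E.H.qQ _ _ h).2.2.2.1⟩).unique h h')

lemma d2 (E : Enu W lt P Q F G c n a b) {p r : ℕ} (hp : p < n) (hr : r < p) : lt (b r) (a p) := by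
  by_contra h
  have := pig (R := fun i j => i < n ∧ Q (a i) (b j)) 1 p 0 r ?_ ?_
  · omega
  · intro i h1 h2
    obtain ⟨j, hj, hij⟩ := E.hQ (i := i) (by omega) h1
    refine ⟨j, ⟨by omega, hij⟩, by omega, ?_⟩
    by_contra h3
    exact h (E.D hp (show j < n by omega) (show i ≤ p by omega) (by omega) (E.H.qQ _ _ hij).2.2.2.2.1)
  · rintro i i' j ⟨hi, h⟩ ⟨hi', h'⟩
    exact E.qinj hi hi' h h'

lemma pP (E : Enu W lt P Q F G c n a b) {p : ℕ} (hp : p < n) : P (a p) (b p) := by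
  have key : ∀ i j, i < n → j < n → P (a i) (b j) → i ≤ j := by
    intro i j hi hj h
    by_contra h3
    exact (E.H.pP _ _ h).2.2.1 (E.d2 hi (by omega))
  obtain ⟨j, hj, hpj⟩ := E.hP hp
  have h1 := key p j hp hj hpj
  rcases Nat.eq_or_lt_of_le h1 with rfl | h2
  · exact hpj
  exfalso
  have := pig (R := fun i j => i < n ∧ j < n ∧ P (a i) (b j)) p (n - p) (p + 1) (n - p - 1) ?_ ?_
  · omega
  · intro i h1 h2
    rcases Nat.eq_or_lt_of_le h1 with rfl | h3
    · exact ⟨j, ⟨hp, hj, hpj⟩, by omega, by omega⟩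
    · obtain ⟨j', hj', hij⟩ := E.hP (i := i) (by omega)
      have := key i j' (by omega) hj' hij
      exact ⟨j', ⟨by omega, hj', hij⟩, by omega, by omega⟩
  · rintro i i' j ⟨hi, hj, h⟩ ⟨hi', _, h'⟩
    exact E.ainj hi hi' ((E.H.P2 (b j) (E.b1 j hj)).unique h h')

lemma qQ (E : Enu W lt P Q F G c n a b) {p : ℕ} (hp : p + 1 < n) : Q (a (p + 1)) (b p) := by
  obtain ⟨j, hj, hpj⟩ := E.hQ hp (by omega)
  rcases Nat.lt_or_ge j p with h | h
  · exfalso
    have := pig (R := fun i j => i < n ∧ Q (a i) (b j)) 1 (p + 1) 0 p ?_ ?_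
    · omega
    · intro i h1 h2
      rcases Nat.eq_or_lt_of_le (show i ≤ p + 1 by omega) with rfl | h3
      · exact ⟨j, ⟨hp, hpj⟩, by omega, by omega⟩
      · obtain ⟨j', hj', hij⟩ := E.hQ (i := i) (by omega) h1
        exact ⟨j', ⟨by omega, hij⟩, by omega, by omega⟩
    · rintro i i' j ⟨hi, h⟩ ⟨hi', h'⟩
      exact E.qinj hi hi' h h'
  · have : j = p := by omega
    rw [← this]
    rw [← this] at hpj
    exact hpj

/-- consecutive letters -/
lemma qr (E : Enu W lt P Q F G c n a b) {p : ℕ} (hp : p + 1 < n) : QR W (c (a p)) (c (a (p + 1))) := by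
  have h1 := (E.H.qQ _ _ (E.qQ hp)).2.2.2.2.2
  obtain ⟨-, -, -, h2, h3, h4⟩ := E.H.pP _ _ (E.pP (p := p) (by omega))
  unfold QR at h1 ⊢
  rwa [h2, h3, h4]

theorem words (E : Enu W lt P Q F G c n a b) : ∃ N, Wd W n N (fun p => (c (a p)).l) := by
  have hn := E.n1
  -- the first row
  obtain ⟨N, hN, hY⟩ := fin_seg (fun p => (c (a p)).y = false) n fun p hp h => (E.qr hp).2.2.1 h
  have hY' : ∀ p, p < n → ((c (a p)).y = true ↔ p < N) := by
    intro p hp
    have := hY p hp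
    rw [← not_le, ← this]
    simp
  have hf := (E.H.pl (a 0)).2.2.2.1 E.f0
  have hN1 : 1 ≤ N := (hY' 0 (by omega)).1 hf.2.1
  -- the last row
  obtain ⟨K, hK, hZ⟩ := fin_seg (fun p => (c (a p)).z = true) n fun p hp h => ((E.qr hp).2.2.2.1 h).1
  obtain ⟨-, -, -, hl1, hy1, hz1⟩ := E.H.pP _ _ (E.pP (p := n - 1) (by omega))
  have he := (E.H.pl (b (n - 1))).2.2.2.2 E.e0
  have hK1 : K ≤ n - 1 := (hZ (n - 1) (by omega)).1 (by rw [hz1]; exact he.2.1)
  have hlast : (c (a (n - 1))).l.2.2.1 = true := by rw [hl1]; exact he.2.2.1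
  have hYb : ∀ p, p < n → ((c (b p)).y = true ↔ p < N) := by
    intro p hp
    rw [← hY' p hp, (E.H.pP _ _ (E.pP hp)).2.2.2.2.1]
  have hF : ∀ i, i < K → ∃ j, j < n ∧ N ≤ j ∧ F (a i) (b j) := by
    intro i hi
    obtain ⟨y, hy, -⟩ := E.H.F1 (a i) ⟨E.a1 i (by omega), by
      by_contra h
      have := (hZ i (by omega)).1 (by simpa using h)
      omega⟩
    obtain ⟨h1, h2, h3, h4, h5, h6⟩ := E.H.fF _ _ hy
    obtain ⟨j, hj, rfl⟩ := E.b2 y h2
    refine ⟨j, hj, ?_, hy⟩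
    by_contra h
    rw [(hYb j hj).2 (by omega)] at h4
    exact absurd h4 (by decide)
  have Finj : ∀ i i' j, i < n → i' < n → F (a i) (b j) → F (a i') (b j) → i = i' := by
    intro i i' j hi hi' h h'
    obtain ⟨h1, h2, h3, h4, h5, h6⟩ := E.H.fF _ _ h
    exact E.ainj hi hi' ((E.H.F2 (b j) ⟨h2, h4⟩).unique h h')
  have hNK : K ≤ n - N := by
    refine pig (R := fun i j => i < n ∧ F (a i) (b j)) 0 K N (n - N) ?_ ?_
    · intro i _ hi
      obtain ⟨j, hj, hj', h⟩ := hF i (by omega)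
      exact ⟨j, ⟨by omega, h⟩, hj', by omega⟩
    · rintro i i' j ⟨hi, h⟩ ⟨hi', h'⟩
      exact Finj _ _ _ hi hi' h h'
  have hKN : n - N ≤ K := by
    refine pig (R := fun j i => i < n ∧ j < n ∧ F (a i) (b j)) N (n - N) 0 K ?_ ?_
    · intro j hj hj'
      obtain ⟨x, hx, -⟩ := E.H.F2 (b j) ⟨E.b1 j (by omega), by
        by_contra h
        have := (hYb j (by omega)).1 (by simpa using h)
        omega⟩
      obtain ⟨h1, h2, h3, h4, h5, h6⟩ := E.H.fF _ _ hx
      obtain ⟨i, hi, rfl⟩ := E.a2 x h1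
      refine ⟨i, ⟨hi, by omega, hx⟩, by omega, ?_⟩
      by_contra h
      rw [(hZ i hi).2 (by omega)] at h3
      exact absurd h3 (by decide)
    · rintro j j' i ⟨hi, hj, h⟩ ⟨_, hj', h'⟩
      obtain ⟨h1, h2, h3, h4, h5, h6⟩ := E.H.fF _ _ h
      exact E.binj hj hj' ((E.H.F1 (a i) ⟨h1, h3⟩).unique h h')
  have hKe : K = n - N := le_antisymm hNK hKN
  subst hKe
  -- marks
  have hrowN : ∀ p, p < N → ((c (a p)).l.2.2.1 = true ↔ p + 1 = N) := by
    intro p hp
    rcases Nat.lt_or_ge (p + 1) n with h | h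
    · have h1 := (E.qr h).2.1 ((hY' p (by omega)).2 hp)
      have h2 := hY' (p + 1) h
      constructor
      · intro h3
        by_contra h4
        have := h1.1 (h2.2 (by omega))
        rw [h3] at this
        exact absurd this (by decide)
      · intro h3
        by_contra h4
        have := h2.1 (h1.2 (by simpa using h4))
        omega
    · have h1 : p = n - 1 := by omega
      subst h1
      exact ⟨fun _ => by omega, fun _ => hlast⟩
  have hGA : ∀ p, p ≤ n - N → GA (c (a p)) := by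
    intro p hp
    by_cases hz : (c (a p)).z = true
    · right
      have h1 := (hZ p (by omega)).1 hz
      rcases Nat.eq_zero_or_pos p with rfl | h0
      · exact hf.2.2.1
      · have h2 := (E.qr (p := p - 1) (by omega)).2.2.2.2
        rw [Nat.sub_add_cancel h0] at h2
        refine h2 ?_ hz
        by_contra h3
        have := (hZ (p - 1) (by omega)).1 (by simpa using h3)
        omega
    · left
      simpa using hz
  have hGB : ∀ p, p < n → GB (c (b p)) → N ≤ p + 1 := by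
    intro p hp h
    rcases h with h | h
    · by_contra h1
      rw [(hYb p hp).2 (by omega)] at h
      exact absurd h (by decide)
    · by_contra h1
      rw [← (E.H.pP _ _ (E.pP hp)).2.2.2.1] at h
      have := (hrowN p (by omega)).1 h
      omega
  -- the upper staircase
  have u1 : ∀ p, p + N < n → lt (a p) (b (p + N)) := by
    intro p hp
    by_contra h
    have := pig (R := fun i j => i < n ∧ F (a i) (b j)) p (n - N - p) (p + N + 1) (n - N - p - 1) ?_ ?_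
    · omega
    · intro i h1 h2
      obtain ⟨j, hj, hj', hij⟩ := hF i (by omega)
      refine ⟨j, ⟨by omega, hij⟩, ?_, by omega⟩
      by_contra h3
      exact h (E.U (show i < n by omega) hp h1 (by omega) (E.H.fF _ _ hij).2.2.2.2.1)
    · rintro i i' j ⟨hi, h⟩ ⟨hi', h'⟩
      exact Finj _ _ _ hi hi' h h'
  have u2 : ∀ p, p ≤ n - N → ¬ lt (a p) (b (p + N - 1)) := by
    intro p hp h
    have := pig (R := fun i j => i < n ∧ j < n ∧ G (a i) (b j)) 0 (p + 1) (N - 1) p ?_ ?_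
    · omega
    · intro i _ h2
      obtain ⟨y, hy, -⟩ := E.H.G1 (a i) ⟨E.a1 i (by omega), hGA i (by omega)⟩
      obtain ⟨g1, g2, g3, g4, g5⟩ := E.H.gG _ _ hy
      obtain ⟨j, hj, rfl⟩ := E.b2 y g2
      have g6 := hGB j hj g4
      refine ⟨j, ⟨by omega, hj, hy⟩, by omega, ?_⟩
      by_contra h3
      exact g5 (E.U (show p < n by omega) hj (by omega) (by omega) h)
    · rintro i i' j ⟨hi, hj, h⟩ ⟨hi', _, h'⟩
      obtain ⟨g1, g2, g3, g4, g5⟩ := E.H.gG _ _ h
      exact E.ainj hi hi' ((E.H.G2 (b j) ⟨g2, g4⟩).unique h h')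
  have hFF : ∀ p, p + N < n → F (a p) (b (p + N)) := by
    have key : ∀ i j, i + N < n → j < n → F (a i) (b j) → i + N ≤ j := by
      intro i j hi hj h
      by_contra h3
      exact u2 i (by omega) (E.U (show i < n by omega) (by omega) le_rfl (by omega) (E.H.fF _ _ h).2.2.2.2.1)
    intro p hp
    obtain ⟨j, hj, hj', hpj⟩ := hF p (by omega)
    have h1 := key p j hp hj hpj
    rcases Nat.eq_or_lt_of_le h1 with rfl | h2
    · exact hpj
    exfalso
    have := pig (R := fun i j => i < n ∧ F (a i) (b j)) p (n - N - p) (p + N + 1) (n - N - p - 1) ?_ ?_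
    · omega
    · intro i h1 h2
      rcases Nat.eq_or_lt_of_le h1 with rfl | h3
      · exact ⟨j, ⟨by omega, hpj⟩, by omega, by omega⟩
      · obtain ⟨j', hj', hj'', hij⟩ := hF i (by omega)
        have := key i j' (by omega) hj' hij
        exact ⟨j', ⟨by omega, hij⟩, by omega, by omega⟩
    · rintro i i' j ⟨hi, h⟩ ⟨hi', h'⟩
      exact Finj _ _ _ hi hi' h h'
  refine ⟨N, hN1, hN, fun p hp => (E.H.pl _).1, fun p hp => (E.qr hp).1, ?_, ?_, ?_, hrowN, ?_, ?_⟩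
  · intro p hp
    have h1 := (E.H.fF _ _ (hFF p hp)).2.2.2.2.2
    rw [← (E.H.pP _ _ (E.pP hp)).2.2.2.1] at h1
    exact h1
  · intro p hp
    exact (E.H.pl _).2.1 ((hY' p (by omega)).2 hp)
  · intro p hp hp'
    exact (E.H.pl _).2.2.1 ((hZ p hp).2 (by omega))
  · exact ⟨hf.2.2.1, hf.2.2.2.1, hf.2.2.2.2⟩
  · exact ⟨hlast, by show (c (a (n - 1))).l.2.2.2 = 1; rw [hl1]; exact he.2.2.2⟩

end Enu

end Pool.Agent.Helper74.P2
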